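import Pool.Agent.PFD.StmtsD4

/-!
Squad PFD, part D4, row TTR (helper46): transitivity of the trace.
-/

set_option autoImplicit false

open scoped BigOperators

noncomputable section

namespace Pool.Agent.PFD.D4.H46

open Pool.Agent.PFC.B1 (FS Split CasStmt)
open Pool.Agent.PFD.D4 Pool.Agent.PFD

section field

variable {K B A I J N : Type} [Field K] [Ring B] [Algebra K B] [Ring A] [Algebra K A]
    [Fintype I] [Fintype J] [Fintype N]

/-- the bilinear map `(u, v) ↦ f u * a * g v` -/
def sandB {C : Type} [Ring C] [Algebra K C] (f : C →ₗ[K] A) (a : A) : C →ₗ[K] C →ₗ[K] A :=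
  LinearMap.mk₂ K (fun u v => f u * a * f v)
    (fun u u' v => by rw [map_add, add_mul, add_mul])
    (fun r u v => by rw [map_smul, smul_mul_assoc, smul_mul_assoc])
    (fun u v v' => by rw [map_add, mul_add])
    (fun r u v => by rw [map_smul, mul_smul_comm])

theorem sandB_apply {C : Type} [Ring C] [Algebra K C] (f : C →ₗ[K] A) (a : A) (u v : C) :
    sandB f a u v = f u * a * f v := rfl

theorem dual_fam (D : KL K B A I J N) (z : A) :
    ∑ k, ∑ i, D.d.lam (D.sp.j (D.c.b' i) * D.s.y k * z) • (D.s.x k * D.sp.j (D.c.b i)) = z := by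
  conv_rhs => rw [← D.s.e1 z]
  refine Finset.sum_congr rfl fun k _ => ?_
  have h1 := D.c.h1 (D.sp.pr (D.s.y k * z))
  conv_rhs => rw [← h1]
  rw [map_sum, Finset.mul_sum]
  refine Finset.sum_congr rfl fun i _ => ?_
  rw [map_smul, mul_smul_comm, D.ort, mul_assoc, D.sp.pr_l]

theorem rt_TB (D : KL K B A I J N) (a : A) : D.s.rt (D.TB a) = D.TA a := by
  have h1 : D.TA a = ∑ p, ∑ k, ∑ i,
      (D.d.lam (D.sp.j (D.c.b' i) * D.s.y k * D.d.b p) • (D.s.x k * D.sp.j (D.c.b i))) * a *
        D.d.b' p := by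
    unfold KL.TA
    refine Finset.sum_congr rfl fun p _ => ?_
    conv_lhs => rw [← dual_fam D (D.d.b p)]
    rw [Finset.sum_mul, Finset.sum_mul]
    refine Finset.sum_congr rfl fun k _ => ?_
    rw [Finset.sum_mul, Finset.sum_mul]
  rw [h1, Finset.sum_comm]
  unfold RF.rt KL.TB
  refine Finset.sum_congr rfl fun k _ => ?_
  rw [Finset.sum_comm, Finset.mul_sum, Finset.sum_mul]
  refine Finset.sum_congr rfl fun i _ => ?_
  have h2 := D.d.h2 (D.sp.j (D.c.b' i) * D.s.y k)
  have h3 : D.s.x k * (D.sp.j (D.c.b i) * a * D.sp.j (D.c.b' i)) * D.s.y k =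
      D.s.x k * D.sp.j (D.c.b i) * a * (D.sp.j (D.c.b' i) * D.s.y k) := by
    simp only [mul_assoc]
  rw [h3]
  conv_lhs => rw [← h2]
  rw [Finset.mul_sum]
  refine Finset.sum_congr rfl fun p _ => ?_
  rw [mul_smul_comm, smul_mul_assoc, smul_mul_assoc]

end field

theorem ttr (cas : CasStmt) : TtrStmt := by
  intro K B A I J N _ _ _ _ _ _ _ _ D
  refine ⟨rt_TB D, ?_, ?_, ?_, ?_⟩
  · intro a b
    have h1 := cas K B I A D.c (sandB D.sp.j.toLinearMap a) b
    simp only [sandB_apply, AlgHom.toLinearMap_apply, map_mul] at h1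
    unfold KL.TB
    rw [Finset.mul_sum, Finset.sum_mul]
    have h2 : ∀ i, D.sp.j b * (D.sp.j (D.c.b i) * a * D.sp.j (D.c.b' i)) =
        D.sp.j b * D.sp.j (D.c.b i) * a * D.sp.j (D.c.b' i) := by
      intro i
      simp only [mul_assoc]
    have h3 : ∀ i, D.sp.j (D.c.b i) * a * D.sp.j (D.c.b' i) * D.sp.j b =
        D.sp.j (D.c.b i) * a * (D.sp.j (D.c.b' i) * D.sp.j b) := by
      intro i
      simp only [mul_assoc]
    simp only [h2, h3]
    exact h1
  · intro a z hz
    unfold KL.TB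
    constructor
    · rw [Finset.mul_sum]
      refine Finset.sum_congr rfl fun i _ => ?_
      rw [← mul_assoc, ← mul_assoc, ← hz, mul_assoc (D.sp.j (D.c.b i)) z a]
    · rw [Finset.sum_mul]
      refine Finset.sum_congr rfl fun i _ => ?_
      rw [mul_assoc, hz]
      simp only [mul_assoc]
  · intro a z hz
    unfold KL.TA
    rw [Finset.mul_sum]
    refine Finset.sum_congr rfl fun p _ => ?_
    rw [← mul_assoc, ← mul_assoc, ← hz, mul_assoc (D.d.b p) z a]
  · intro a z
    have h1 := cas K A J A D.d (sandB LinearMap.id a) z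
    simp only [sandB_apply, LinearMap.id_apply] at h1
    unfold KL.TA
    rw [Finset.mul_sum, Finset.sum_mul]
    have h2 : ∀ i, z * (D.d.b i * a * D.d.b' i) = z * D.d.b i * a * D.d.b' i := by
      intro i
      simp only [mul_assoc]
    have h3 : ∀ i, D.d.b i * a * D.d.b' i * z = D.d.b i * a * (D.d.b' i * z) := by
      intro i
      simp only [mul_assoc]
    simp only [h2, h3]
    exact h1

end Pool.Agent.PFD.D4.H46
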